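import Pool.Agent.R280.EllOne

/-!
# A Dedekind complete projective Banach lattice which is not an `ℓ_1`-sum (MP_23899c_an, Q1, Q2: no)

`P` is the space `ℓ_1` with the norm `sup {∑ w_n |x_n| : 0 ≤ w_n ≤ 1, ∑ 2^{-n} w_n ≤ 1}`; its unit ball
is the closed solid convex hull of the unit vectors `e_n` and of `(2^{-n})_n`.
* `P` is projective: lift the images of the `e_n` to disjoint `x_n ≥ 0`, choose `z` with
  `0 ≤ z ≤ s = ∑ 2^{-n} x_n`, `Q z = Q s` and small norm, and pass to `(x_n - 2^n (s - z))⁺`.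
* `P` is Dedekind complete.
* `‖e_0 + 2^{-n} e_n‖ = 1` for all `n ≥ 1`, while in an `ℓ_1`-sum of finite-dimensional lattices all
  but finitely many `e_n` would be in summands other than that of `e_0`.
-/

set_option autoImplicit false

open Pool.Agent.R280.BLat Set Topology Filter
open scoped ENNReal

universe u v w

namespace Pool.Agent.Results.MP_23899c_an.DedekindProjective

/-- `P` is isometrically lattice isomorphic to the `ℓ_1`-sum of a finite or countable family of
finite-dimensional Banach lattices: there is a linear isometry `φ` of the `ℓ_1`-sum onto `P` such that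
`φ x ≥ 0` if and only if all coordinates of `x` are `≥ 0`. -/
def IsEll1SumOfFiniteDim (P : Type u) [NormedAddCommGroup P] [NormedSpace ℝ P] [Lattice P] :
    Prop :=
  ∃ (ι : Type) (_ : Countable ι) (E : ι → Type w) (_ : ∀ i, NormedAddCommGroup (E i))
    (_ : ∀ i, NormedSpace ℝ (E i)) (_ : ∀ i, Lattice (E i)),
    (∀ i, BanachLattice (E i)) ∧ (∀ i, FiniteDimensional ℝ (E i)) ∧
      ∃ φ : lp E 1 ≃ₗᵢ[ℝ] P, ∀ x : lp E 1, 0 ≤ φ x ↔ ∀ i, 0 ≤ x i

/-- the weighted total -/
noncomputable def tot (w : ℕ →₀ ℝ) : ℝ := w.sum fun n c => (1 / 2) ^ n * c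

lemma tot_add (v w : ℕ →₀ ℝ) : tot (v + w) = tot v + tot w := by
  classical
  unfold tot
  rw [Finsupp.sum_add_index]
  · intro i _; rw [mul_zero]
  · intro i _ a b; rw [mul_add]

lemma tot_single (n : ℕ) (c : ℝ) : tot (Finsupp.single n c) = (1 / 2) ^ n * c := by
  unfold tot
  rw [Finsupp.sum_single_index]
  rw [mul_zero]

/-- the weights -/
def WP : Set (ℕ →₀ ℝ) := {w | (∀ n, 0 ≤ w n) ∧ (∀ n, w n ≤ 1) ∧ tot w ≤ 1}

lemma single_mem_WP (n : ℕ) : Finsupp.single n (1 : ℝ) ∈ WP := by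
  classical
  refine ⟨fun j => ?_, fun j => ?_, ?_⟩
  · rw [Finsupp.single_apply]; split_ifs <;> norm_num
  · rw [Finsupp.single_apply]; split_ifs <;> norm_num
  · rw [tot_single, mul_one]
    exact pow_le_one₀ (by norm_num) (by norm_num)

/-- the lattice -/
noncomputable def PP : FLat ℕ := fullLat WP (fun _ hw => hw.1)
  (fun n => ⟨Finsupp.single n 1, single_mem_WP n, by simp⟩)

lemma pr_single' (n : ℕ) (c : ℝ) (x : ℕ → ℝ) : pr (Finsupp.single n c) x = c * |x n| := by
  unfold pr
  rw [Finsupp.sum_single_index]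
  rw [zero_mul]

lemma pr_add' (v w : ℕ →₀ ℝ) (x : ℕ → ℝ) : pr (v + w) x = pr v x + pr w x := by
  classical
  unfold pr
  rw [Finsupp.sum_add_index]
  · intro i _; rw [zero_mul]
  · intro i _ a b; rw [add_mul]

lemma pr_sum' (F : Finset ℕ) (c : ℝ) (x : ℕ → ℝ) :
    pr (∑ n ∈ F, Finsupp.single n c) x = ∑ n ∈ F, c * |x n| := by
  classical
  induction F using Finset.induction_on with
  | empty => simp [pr]
  | insert i F hi ih => rw [Finset.sum_insert hi, Finset.sum_insert hi, pr_add', ih, pr_single']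

lemma tot_sum (F : Finset ℕ) (c : ℝ) :
    tot (∑ n ∈ F, Finsupp.single n c) = ∑ n ∈ F, (1 / 2) ^ n * c := by
  classical
  induction F using Finset.induction_on with
  | empty => simp [tot]
  | insert i F hi ih => rw [Finset.sum_insert hi, Finset.sum_insert hi, tot_add, ih, tot_single]

open Classical in
lemma sum_single_apply (F : Finset ℕ) (c : ℝ) (j : ℕ) :
    (∑ n ∈ F, Finsupp.single n c) j = if j ∈ F then c else 0 := by
  rw [Finsupp.finsetSum_apply]
  simp [Finsupp.single_apply]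

lemma geom_le (F : Finset ℕ) (hF : 0 ∉ F) : ∑ n ∈ F, (1 / 2 : ℝ) ^ n ≤ 1 := by
  classical
  have h1 : HasSum (fun n : ℕ => (1 / 2 : ℝ) ^ n) 2 := by
    have := hasSum_geometric_two
    simpa using this
  have h2 := sum_le_hasSum (insert 0 F) (fun i _ => by positivity) h1
  rw [Finset.sum_insert hF] at h2
  norm_num at h2 ⊢
  linarith

/-- the basic lower bound for the norm -/
lemma bound_norm (x : PP.Space) (F : Finset ℕ) (hF : 0 ∉ F) :
    |x.fn 0| + ∑ n ∈ F, (|x.fn n| - (1 / 2) ^ n * |x.fn 0|) ≤ ‖x‖ := by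
  classical
  set g := ∑ n ∈ F, (1 / 2 : ℝ) ^ n with hg
  have hg0 : 0 ≤ g := Finset.sum_nonneg fun n _ => by positivity
  have hg1 : g ≤ 1 := geom_le F hF
  set w : ℕ →₀ ℝ := Finsupp.single 0 (1 - g) + ∑ n ∈ F, Finsupp.single n 1 with hw
  have hwapp : ∀ j, w j = (if 0 = j then 1 - g else 0) + (if j ∈ F then 1 else 0) := by
    intro j
    rw [hw, Finsupp.add_apply, Finsupp.single_apply, sum_single_apply]
  have hmem : w ∈ WP := by
    refine ⟨fun j => ?_, fun j => ?_, ?_⟩
    · rw [hwapp]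
      split_ifs <;> linarith
    · rw [hwapp]
      by_cases hj : 0 = j
      · subst hj
        rw [if_pos rfl, if_neg hF]
        linarith
      · rw [if_neg hj]
        split_ifs <;> norm_num
    · rw [hw, tot_add, tot_single, tot_sum]
      simp only [mul_one, pow_zero, one_mul]
      rw [← hg]
      linarith
  refine le_trans (le_of_eq ?_) (FLat.pr_le x (show w ∈ PP.W from hmem))
  rw [hw, pr_add', pr_single', pr_sum']
  simp only [one_mul]
  rw [Finset.sum_sub_distrib, ← Finset.sum_mul, ← hg]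
  ring

lemma isL1Type_PP : IsL1Type PP where
  unit_mem n := by
    refine ⟨1, fun w hw => ?_⟩
    exact pr_single_le n 1 (fun i hi => by rw [Pi.single_apply, if_neg hi]) (by simp) (hw.1 n)
      (hw.2.1 n)
  le_one w hw n := hw.2.1 n
  exists_bound := by
    classical
    refine ⟨2, fun x F => ?_⟩
    set w : ℕ →₀ ℝ := ∑ n ∈ F, Finsupp.single n (1 / 2) with hw
    have hmem : w ∈ WP := by
      refine ⟨fun j => ?_, fun j => ?_, ?_⟩
      · rw [hw, sum_single_apply]; split_ifs <;> norm_num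
      · rw [hw, sum_single_apply]; split_ifs <;> norm_num
      · rw [hw, tot_sum, ← Finset.sum_mul]
        have h1 : HasSum (fun n : ℕ => (1 / 2 : ℝ) ^ n) 2 := by
          have := hasSum_geometric_two
          simpa using this
        have h2 := sum_le_hasSum F (fun i _ => by positivity) h1
        linarith
    have h1 := FLat.pr_le x (show w ∈ PP.W from hmem)
    rw [hw, pr_sum', ← Finset.mul_sum] at h1
    linarith

/-- the sum of disjoint elements below `z` is below `z` -/
lemma sum_le_of_disj {X : Type u} [NormedAddCommGroup X] [NormedSpace ℝ X] [Lattice X]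
    [BanachLattice X] {a : ℕ → X} (ha : ∀ n, 0 ≤ a n) (hd : ∀ m n, m ≠ n → a m ⊓ a n = 0) {z : X}
    (hz0 : 0 ≤ z) (hz : ∀ n, a n ≤ z) (N : ℕ) : ∑ n ∈ Finset.range N, a n ≤ z := by
  induction N with
  | zero => simpa using hz0
  | succ N ih =>
    rw [Finset.sum_range_succ]
    have h1 : a N ⊓ (∑ n ∈ Finset.range N, a n) = 0 :=
      disj_sum _ (ha N) ha fun n hn => hd N n (by have := Finset.mem_range.1 hn; omega)
    have h2 := inf_add_sup (a N) (∑ n ∈ Finset.range N, a n)
    rw [h1, zero_add] at h2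
    rw [add_comm, ← h2]
    exact sup_le (hz N) ih

/-- `P` is projective -/
theorem isProjective_PP : IsProjective.{0, v} PP.Space := by
  intro X Y _ _ _ _ _ _ _ _ Q hQ T hT ε hε
  have hL := isL1Type_PP
  set M := (1 + ε) * ‖T‖ with hM
  have hM0 : 0 ≤ M := by positivity
  have hyd : ∀ m n, m ≠ n → T (hL.e m) ⊓ T (hL.e n) = 0 := by
    intro m n h
    rw [← (hT _ _).2, hL.e_disj h, map_zero]
  have hyn : ∀ n, ‖T (hL.e n)‖ ≤ ‖T‖ := fun n => by
    have h1 := T.le_opNorm (hL.e n)
    exact h1.trans (mul_le_of_le_one_right (norm_nonneg _) (hL.norm_e_le n))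
  obtain ⟨x, hx0, hxd, hxQ, hxn⟩ := hQ.exists_disjoint_lift (fun n => hT.map_pos (hL.e_nonneg n))
    hyd hyn hε
  -- the element `(2^{-n})_n`
  have hwmem : (fun n : ℕ => (1 / 2 : ℝ) ^ n) ∈ PP.S := by
    refine ⟨1, fun w hw => ?_⟩
    refine le_trans (le_of_eq ?_) hw.2.2
    unfold pr tot
    refine Finset.sum_congr rfl fun n _ => ?_
    simp only
    rw [abs_of_nonneg (by positivity), mul_comm]
  set ω : PP.Space := FLat.of _ hwmem with hω
  have hω1 : ‖ω‖ ≤ 1 := by
    refine FLat.norm_le_of _ zero_le_one fun w hw => ?_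
    refine le_trans (le_of_eq ?_) hw.2.2
    unfold pr tot
    refine Finset.sum_congr rfl fun n _ => ?_
    show w n * |(1 / 2 : ℝ) ^ n| = (1 / 2) ^ n * w n
    rw [abs_of_nonneg (by positivity), mul_comm]
  have hω0 : 0 ≤ ω := fun n => by
    show (0 : ℝ) ≤ (1 / 2) ^ n
    positivity
  have hsx : Summable fun n : ℕ => (1 / 2 : ℝ) ^ n • x n := by
    refine Summable.of_norm_bounded ((summable_geometric_of_lt_one (r := (1 / 2 : ℝ))
      (by norm_num) (by norm_num)).mul_right M) fun n => ?_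
    rw [norm_smul, Real.norm_of_nonneg (by positivity)]
    exact mul_le_mul_of_nonneg_left (hxn n) (by positivity)
  set s := ∑' n : ℕ, (1 / 2 : ℝ) ^ n • x n with hs
  have hterm : ∀ n : ℕ, 0 ≤ (1 / 2 : ℝ) ^ n • x n := fun n => smul_nonneg (by positivity) (hx0 n)
  have hs0 : 0 ≤ s := tsum_nonneg hterm
  have hQs : Q s = T ω := by
    have h1 := hsx.hasSum.mapL Q
    have h2 := (hL.hasSum_unit ω).mapL T
    simp only [map_smul, hxQ] at h1 h2
    exact h1.unique h2
  have hTω : ‖T ω‖ ≤ ‖T‖ := (T.le_opNorm ω).trans (mul_le_of_le_one_right (norm_nonneg _) hω1)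
  obtain ⟨z₀, hz₀, hz₀Q, hz₀n⟩ := hQ.exists_pos_lift' (hT.map_pos hω0) hTω hε
  set z := z₀ ⊓ s with hz
  have hz0 : 0 ≤ z := le_inf hz₀ hs0
  have hzs : z ≤ s := inf_le_right
  have hzQ : Q z = T ω := by rw [hz, (hQ.1 _ _).2, hz₀Q, hQs, inf_idem]
  have hzn : ‖z‖ ≤ M := (norm_le_of_nonneg hz0 inf_le_left).trans hz₀n
  set j := s - z with hj
  have hj0 : 0 ≤ j := sub_nonneg.2 hzs
  have hjQ : Q j = 0 := by rw [hj, map_sub, hQs, hzQ, sub_self]
  -- the new lifts
  set x' : ℕ → X := fun n => (x n - (2 : ℝ) ^ n • j) ⊔ 0 with hx'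
  have hx'0 : ∀ n, 0 ≤ x' n := fun n => le_sup_right
  have hx'x : ∀ n, x' n ≤ x n := fun n =>
    sup_le (sub_le_self _ (smul_nonneg (by positivity) hj0)) (hx0 n)
  have hx'd : ∀ m n, m ≠ n → x' m ⊓ x' n = 0 := fun m n h =>
    disj_mono (hx'0 m) (hx'0 n) (hx'x m) (hx'x n) (hxd m n h)
  have hx'Q : ∀ n, Q (x' n) = T (hL.e n) := by
    intro n
    rw [hx']
    simp only
    rw [(hQ.1 _ _).1, map_sub, map_smul, hjQ, smul_zero, sub_zero, map_zero, hxQ]
    exact sup_eq_left.2 (hT.map_pos (hL.e_nonneg n))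
  have hx'n : ∀ n, ‖x' n‖ ≤ M := fun n => (norm_le_of_nonneg (hx'0 n) (hx'x n)).trans (hxn n)
  -- the weighted sums are below `z`
  have hle : ∀ n, (1 / 2 : ℝ) ^ n • x' n ≤ z := by
    intro n
    have h1 : (1 / 2 : ℝ) ^ n • x' n ≤ ((1 / 2 : ℝ) ^ n • x n - j) ⊔ 0 := by
      have h2 : x' n ≤ (2 : ℝ) ^ n • (((1 / 2 : ℝ) ^ n • x n - j) ⊔ 0) := by
        refine sup_le ?_ (smul_nonneg (by positivity) le_sup_right)
        have h3 : x n - (2 : ℝ) ^ n • j = (2 : ℝ) ^ n • ((1 / 2 : ℝ) ^ n • x n - j) := by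
          rw [smul_sub ((2 : ℝ) ^ n) ((1 / 2 : ℝ) ^ n • x n) j, smul_smul, ← mul_pow]
          norm_num
        rw [h3]
        exact smul_le_smul_of_nonneg_left le_sup_left (by positivity)
      have h4 := smul_le_smul_of_nonneg_left h2 (by positivity : (0 : ℝ) ≤ (1 / 2) ^ n)
      rw [smul_smul, ← mul_pow] at h4
      norm_num at h4 ⊢
      exact h4
    refine h1.trans (sup_le ?_ hz0)
    have h2 : (1 / 2 : ℝ) ^ n • x n ≤ s := hsx.le_tsum n fun k _ => hterm k
    rw [hj, sub_le_iff_le_add, add_sub_cancel]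
    exact h2
  have hsumle : ∀ N : ℕ, ‖∑ n ∈ Finset.range N, (1 / 2 : ℝ) ^ n • x' n‖ ≤ M := by
    intro N
    refine (norm_le_of_nonneg (Finset.sum_nonneg fun n _ =>
      smul_nonneg (by positivity) (hx'0 n)) ?_).trans hzn
    refine sum_le_of_disj (fun n => smul_nonneg (by positivity) (hx'0 n)) (fun m n h => ?_) hz0
      hle N
    rw [inf_comm]
    refine disj_smul (smul_nonneg (by positivity) (hx'0 n)) (hx'0 m) ?_ (by positivity)
    rw [inf_comm]
    exact disj_smul (hx'0 m) (hx'0 n) (hx'd m n h) (by positivity)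
  obtain ⟨T', hT', hsum⟩ := hL.exists_hom hx'0 hx'd hx'n
  refine ⟨T', hT', fun β => hL.comp_eq hx'Q hsum β, ?_⟩
  refine ContinuousLinearMap.opNorm_le_bound _ hM0 fun β => ?_
  -- the norm bound for finite sums
  have hfin : ∀ N : ℕ, ‖∑ n ∈ Finset.range N, |β|.fn n • x' n‖ ≤ M * ‖β‖ := by
    intro N
    set b0 := |β.fn 0| with hb0
    have hb00 : 0 ≤ b0 := abs_nonneg _
    set c : ℕ → ℝ := fun n => (|β.fn n| - (1 / 2) ^ n * b0) ⊔ 0 with hc
    have hc0 : ∀ n, 0 ≤ c n := fun n => le_sup_right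
    have h1 : ∑ n ∈ Finset.range N, |β|.fn n • x' n ≤
        b0 • (∑ n ∈ Finset.range N, (1 / 2 : ℝ) ^ n • x' n) +
          ∑ n ∈ Finset.range N, c n • x' n := by
      rw [Finset.smul_sum, ← Finset.sum_add_distrib]
      refine Finset.sum_le_sum fun n _ => ?_
      rw [smul_smul, ← add_smul]
      refine smul_le_smul_of_nonneg_right ?_ (hx'0 n)
      rw [FLat.abs_fn]
      have h2 : |β.fn n| - (1 / 2) ^ n * b0 ≤ c n := le_sup_left
      linarith
    have h2 : b0 + ∑ n ∈ Finset.range N, c n ≤ ‖β‖ := by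
      classical
      set F := (Finset.range N).filter fun n => 0 < c n with hF
      have h3 : ∑ n ∈ Finset.range N, c n = ∑ n ∈ F, c n := by
        rw [hF, Finset.sum_filter_of_ne]
        intro n _ hn
        exact lt_of_le_of_ne (hc0 n) (Ne.symm hn)
      have h4 : 0 ∉ F := by
        intro h
        rw [hF, Finset.mem_filter] at h
        have : c 0 = 0 := by
          rw [hc]
          simp [hb0]
        exact absurd h.2 (by rw [this]; exact lt_irrefl 0)
      have h5 : ∀ n ∈ F, c n = |β.fn n| - (1 / 2) ^ n * b0 := by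
        intro n hn
        rw [hF, Finset.mem_filter] at hn
        have h6 : 0 < c n := hn.2
        rw [hc] at h6 ⊢
        simp only at h6 ⊢
        rcases le_total (|β.fn n| - (1 / 2) ^ n * b0) 0 with h7 | h7
        · rw [sup_eq_right.2 h7] at h6
          exact absurd h6 (lt_irrefl _)
        · rw [sup_eq_left.2 h7]
      rw [h3, Finset.sum_congr rfl h5]
      exact bound_norm β F h4
    have h3 : 0 ≤ ∑ n ∈ Finset.range N, |β|.fn n • x' n :=
      Finset.sum_nonneg fun n _ => smul_nonneg (by rw [FLat.abs_fn]; exact abs_nonneg _) (hx'0 n)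
    calc ‖∑ n ∈ Finset.range N, |β|.fn n • x' n‖
        ≤ ‖b0 • (∑ n ∈ Finset.range N, (1 / 2 : ℝ) ^ n • x' n) +
          ∑ n ∈ Finset.range N, c n • x' n‖ := norm_le_of_nonneg h3 h1
      _ ≤ ‖b0 • (∑ n ∈ Finset.range N, (1 / 2 : ℝ) ^ n • x' n)‖ +
          ‖∑ n ∈ Finset.range N, c n • x' n‖ := norm_add_le _ _
      _ ≤ b0 * M + ∑ n ∈ Finset.range N, c n * M := by
          refine add_le_add ?_ ?_
          · rw [norm_smul, Real.norm_of_nonneg hb00]
            exact mul_le_mul_of_nonneg_left (hsumle N) hb00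
          · refine (norm_sum_le _ _).trans (Finset.sum_le_sum fun n _ => ?_)
            rw [norm_smul, Real.norm_of_nonneg (hc0 n)]
            exact mul_le_mul_of_nonneg_left (hx'n n) (hc0 n)
      _ = M * (b0 + ∑ n ∈ Finset.range N, c n) := by
          rw [← Finset.sum_mul]; ring
      _ ≤ M * ‖β‖ := mul_le_mul_of_nonneg_left h2 hM0
  have h1 : ‖T' |β|‖ ≤ M * ‖β‖ := by
    have h2 := (hsum |β|).tendsto_sum_nat.norm
    exact le_of_tendsto h2 (Eventually.of_forall hfin)
  rw [hT'.map_abs] at h1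
  have h2 : ‖T' β‖ ≤ ‖|T' β|‖ := HasSolidNorm.solid (by rw [abs_abs])
  exact h2.trans h1

/-- full function lattices are Dedekind complete -/
lemma exists_isLUB (A : Set PP.Space) (hA : A.Nonempty) (hb : BddAbove A) : ∃ s, IsLUB A s := by
  obtain ⟨x₀, hx₀⟩ := hA
  obtain ⟨b, hb⟩ := hb
  set f : ℕ → ℝ := fun i => sSup ((fun x : PP.Space => x.fn i) '' A) with hf
  have hbdd : ∀ i, BddAbove ((fun x : PP.Space => x.fn i) '' A) := by
    intro i
    refine ⟨b.fn i, ?_⟩
    rintro _ ⟨x, hx, rfl⟩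
    exact hb hx i
  have h1 : ∀ x ∈ A, ∀ i, x.fn i ≤ f i := fun x hx i => le_csSup (hbdd i) ⟨x, hx, rfl⟩
  have h2 : ∀ c : PP.Space, (∀ x ∈ A, x ≤ c) → ∀ i, f i ≤ c.fn i := by
    intro c hc i
    refine csSup_le ⟨_, ⟨x₀, hx₀, rfl⟩⟩ ?_
    rintro _ ⟨x, hx, rfl⟩
    exact hc x hx i
  have hmem : f ∈ PP.S := by
    obtain ⟨C, hC⟩ := PP.bdd x₀.fn x₀.2
    obtain ⟨D, hD⟩ := PP.bdd b.fn b.2
    refine ⟨C + D, fun w hw => ?_⟩
    refine le_trans ?_ (add_le_add (hC w hw) (hD w hw))
    rw [pr_eq, pr_eq, pr_eq, ← Finset.sum_add_distrib]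
    refine Finset.sum_le_sum fun i _ => ?_
    rw [← mul_add]
    refine mul_le_mul_of_nonneg_left ?_ (hw.1 i)
    have h3 := h1 x₀ hx₀ i
    have h4 := h2 b (fun x hx => hb hx) i
    rw [abs_le]
    constructor
    · linarith [neg_abs_le (x₀.fn i), abs_nonneg (b.fn i)]
    · linarith [le_abs_self (b.fn i), abs_nonneg (x₀.fn i)]
  refine ⟨FLat.of f hmem, fun x hx i => h1 x hx i, fun c hc => ?_⟩
  exact h2 c fun x hx => hc hx

lemma norm_le_one (n : ℕ) (hn : n ≠ 0) :
    ‖isL1Type_PP.e 0 + (1 / 2 : ℝ) ^ n • isL1Type_PP.e n‖ ≤ 1 := by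
  have hL := isL1Type_PP
  refine FLat.norm_le_of _ zero_le_one fun w hw => ?_
  refine le_trans ?_ hw.2.2
  unfold pr tot
  refine Finset.sum_le_sum fun i _ => ?_
  simp only
  rw [mul_comm]
  refine mul_le_mul_of_nonneg_right ?_ (hw.1 i)
  rw [FLat.add_fn, FLat.smul_fn, hL.e_fn, hL.e_fn]
  by_cases h0 : i = 0
  · subst h0
    rw [if_pos rfl, if_neg (Ne.symm hn)]
    simp
  · rw [if_neg h0, zero_add]
    by_cases h1 : i = n
    · subst h1
      rw [if_pos rfl, mul_one, abs_of_nonneg (by positivity)]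
    · rw [if_neg h1, mul_zero, abs_zero]
      positivity

lemma one_le_norm_e0 : 1 ≤ ‖isL1Type_PP.e 0‖ := by
  have h1 := FLat.pr_le (isL1Type_PP.e 0) (show Finsupp.single 0 (1 : ℝ) ∈ PP.W from
    single_mem_WP 0)
  rw [pr_single', isL1Type_PP.e_fn] at h1
  simpa using h1

theorem not_isEll1Sum : ¬ IsEll1SumOfFiniteDim.{0, w} PP.Space := by
  classical
  rintro ⟨ι, _, E, _, _, _, hE, hfd, φ, hφ⟩
  have hL := isL1Type_PP
  set a := φ.symm (hL.e 0) with ha
  have hφa : φ a = hL.e 0 := by rw [ha, LinearIsometryEquiv.apply_symm_apply]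
  have ha0 : ∀ i, 0 ≤ a i := (hφ a).1 (by rw [hφa]; exact hL.e_nonneg 0)
  have hane : a ≠ 0 := by
    intro h
    rw [h, map_zero] at hφa
    have := one_le_norm_e0
    rw [← hφa, norm_zero] at this
    norm_num at this
  obtain ⟨i₀, hi₀⟩ : ∃ i, a i ≠ 0 := by
    by_contra hcon
    push Not at hcon
    exact hane (lp.ext (funext hcon))
  -- `a` is concentrated at `i₀`
  have hconc : ∀ i, i ≠ i₀ → a i = 0 := by
    set s := lp.single 1 i₀ (a i₀) with hs
    have hs0 : 0 ≤ φ s := by
      rw [hφ]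
      intro i
      by_cases h : i = i₀
      · subst h
        rw [hs, lp.single_apply_self]; exact ha0 _
      · rw [hs, lp.single_apply_ne _ _ _ h]
    have hsa : φ s ≤ hL.e 0 := by
      rw [← sub_nonneg, ← hφa, ← map_sub, hφ]
      intro i
      rw [lp.coeFn_sub, Pi.sub_apply]
      by_cases h : i = i₀
      · subst h
        rw [hs, lp.single_apply_self, sub_self]
      · rw [hs, lp.single_apply_ne _ _ _ h, sub_zero]; exact ha0 i
    have hφs : φ s = (φ s).fn 0 • hL.e 0 := by
      refine FLat.Space.ext fun n => ?_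
      rw [FLat.smul_fn, hL.e_fn]
      by_cases hn : n = 0
      · subst hn; rw [if_pos rfl, mul_one]
      · rw [if_neg hn, mul_zero]
        refine le_antisymm ?_ (hs0 n)
        have := hsa n
        rwa [hL.e_fn, if_neg hn] at this
    have hst : s = (φ s).fn 0 • a := by
      apply φ.injective
      rw [map_smul, hφa]
      exact hφs
    intro i hi
    by_contra hne
    have h1 : s i = (φ s).fn 0 • a i := by
      conv_lhs => rw [hst]
      rfl
    rw [hs, lp.single_apply_ne _ _ _ hi, ← hs] at h1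
    have h2 : (φ s).fn 0 = 0 := by
      rcases smul_eq_zero.1 h1.symm with h | h
      · exact h
      · exact absurd h hne
    rw [h2, zero_smul] at hst
    have h3 : s i₀ = 0 := by rw [hst]; rfl
    rw [hs, lp.single_apply_self] at h3
    exact hi₀ h3
  have hna : ‖a‖ = ‖a i₀‖ := by
    have h1 := lp.hasSum_norm (p := 1) (by simp) a
    simp only [ENNReal.toReal_one, Real.rpow_one] at h1
    refine h1.unique ?_
    refine hasSum_single i₀ fun i hi => ?_
    rw [hconc i hi, norm_zero]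
  have hna1 : 1 ≤ ‖a i₀‖ := by
    rw [← hna, ← φ.norm_map a, hφa]
    exact one_le_norm_e0
  -- the other unit vectors are concentrated at `i₀`
  have hconc2 : ∀ n : ℕ, n ≠ 0 → ∀ i, i ≠ i₀ → (φ.symm (hL.e n)) i = 0 := by
    intro n hn i hi
    set b := φ.symm (hL.e n) with hb
    have hφb : φ b = hL.e n := by rw [hb, LinearIsometryEquiv.apply_symm_apply]
    have hb0 : ∀ i, 0 ≤ b i := (hφ b).1 (by rw [hφb]; exact hL.e_nonneg n)
    by_contra hne
    set y := a + (1 / 2 : ℝ) ^ n • b with hy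
    have hyn : ‖y‖ ≤ 1 := by
      rw [← φ.norm_map y, hy, map_add, map_smul, hφa, hφb]
      exact norm_le_one n hn
    have h1 := lp.hasSum_norm (p := 1) (by simp) y
    simp only [ENNReal.toReal_one, Real.rpow_one] at h1
    have h2 := sum_le_hasSum {i₀, i} (fun j _ => norm_nonneg _) h1
    rw [Finset.sum_pair (Ne.symm hi)] at h2
    have h3 : y i = (1 / 2 : ℝ) ^ n • b i := by
      rw [hy, lp.coeFn_add, Pi.add_apply, hconc i hi, zero_add]
      rfl
    have h4 : 0 < ‖y i‖ := by
      rw [h3, norm_pos_iff]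
      exact smul_ne_zero (by positivity) hne
    have h5 : ‖a i₀‖ ≤ ‖y i₀‖ := by
      have := hE i₀
      refine norm_le_of_nonneg (ha0 i₀) ?_
      have h6 : y i₀ = a i₀ + (1 / 2 : ℝ) ^ n • b i₀ := by
        rw [hy, lp.coeFn_add, Pi.add_apply]
        rfl
      rw [h6]
      exact le_add_of_nonneg_right (smul_nonneg (by positivity) (hb0 i₀))
    linarith
  -- contradiction with finite-dimensionality
  let ψ : E i₀ →ₗ[ℝ] PP.Space := φ.toLinearEquiv.toLinearMap.comp (lp.lsingle 1 i₀)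
  have hψ : ∀ n : ℕ, n ≠ 0 → ψ ((φ.symm (hL.e n)) i₀) = hL.e n := by
    intro n hn
    have h1 : lp.single 1 i₀ ((φ.symm (hL.e n)) i₀) = φ.symm (hL.e n) := by
      refine lp.ext (funext fun i => ?_)
      by_cases h : i = i₀
      · subst h; rw [lp.single_apply_self]
      · rw [lp.single_apply_ne _ _ _ h, hconc2 n hn i h]
    show φ (lp.single 1 i₀ ((φ.symm (hL.e n)) i₀)) = hL.e n
    rw [h1, LinearIsometryEquiv.apply_symm_apply]
  have hli : LinearIndependent ℝ fun n : ℕ => hL.e (n + 1) := by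
    rw [linearIndependent_iff']
    intro F g hg n hn
    have h1 := congrArg (fun z : PP.Space => FLat.eval (n + 1) z) hg
    simp only [map_sum, map_smul, map_zero, smul_eq_mul, FLat.eval_apply, hL.e_fn] at h1
    rw [Finset.sum_eq_single n] at h1
    · simpa using h1
    · intro m _ hm
      rw [if_neg (by omega), mul_zero]
    · intro h; exact absurd hn h
  have hli2 : LinearIndependent ℝ fun n : ℕ => (φ.symm (hL.e (n + 1))) i₀ := by
    refine LinearIndependent.of_comp ψ ?_
    have : (ψ ∘ fun n : ℕ => (φ.symm (hL.e (n + 1))) i₀) = fun n : ℕ => hL.e (n + 1) := by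
      funext n
      exact hψ (n + 1) (Nat.succ_ne_zero n)
    rw [this]
    exact hli
  have := hfd i₀
  exact not_finite_iff_infinite.2 inferInstance (hli2.finite)

/-- There is a Banach lattice `P` which is Dedekind complete and projective, but not isometrically
lattice isomorphic to the `ℓ_1`-sum of a finite or countable family of finite-dimensional Banach
lattices. -/
theorem result : ∃ (P : Type) (_ : NormedAddCommGroup P) (_ : NormedSpace ℝ P) (_ : Lattice P),
    BanachLattice P ∧ (∀ A : Set P, A.Nonempty → BddAbove A → ∃ s, IsLUB A s) ∧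
      IsProjective.{0, v} P ∧ ¬ IsEll1SumOfFiniteDim.{0, w} P :=
  ⟨PP.Space, inferInstance, inferInstance, inferInstance, inferInstance, exists_isLUB,
    isProjective_PP, not_isEll1Sum⟩

end Pool.Agent.Results.MP_23899c_an.DedekindProjective
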